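import Pool.Agent.H96.CP.Stm

/-!
# Project CP: crystal labelling of a square with small defects (`S_crys`)
-/

set_option autoImplicit false

open Real Set MeasureTheory Metric Filter Topology
open scoped ENNReal Nat ComplexConjugate

namespace Pool.Agent.H87.CP

open Pool.Agent.H96.HD (Kc nbr mem_nbr nbr_symm nbr_norm stab exists_rot defect al al_le cos_al
  c0 c0_pos C1 C1_pos Sq)
open Pool.Agent.H96.CP (Qd inner lat Sep dfc S_crys)

noncomputable abbrev ω : ℂ := Pool.Agent.H96.CP.om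

theorem exp_pi3 : Complex.exp ((π / 3 : ℂ) * Complex.I) = ω := by
  have h : ((π : ℂ) / 3) = ((π / 3 : ℝ) : ℂ) := by push_cast; rfl
  rw [h, Complex.exp_mul_I, ← Complex.ofReal_cos, ← Complex.ofReal_sin, Real.cos_pi_div_three,
    Real.sin_pi_div_three]
  apply Complex.ext <;> simp [Pool.Agent.H96.CP.om]

theorem hdom (m : Fin 6) : Pool.Agent.H96.HD.om m = ω ^ (m : ℕ) := by
  unfold Pool.Agent.H96.HD.om
  rw [← exp_pi3, ← Complex.exp_nat_mul]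
  congr 1
  ring

theorem om_sq : ω ^ 2 = ω - 1 := by
  have h3 : √3 * √3 = 3 := by norm_num
  apply Complex.ext
  · simp only [Pool.Agent.H96.CP.om, pow_two, Complex.mul_re, Complex.sub_re, Complex.one_re]
    nlinarith
  · simp only [Pool.Agent.H96.CP.om, pow_two, Complex.mul_im, Complex.sub_im, Complex.one_im]
    ring

theorem om_cube : ω ^ 3 = -1 := by
  rw [pow_succ, om_sq]
  have := om_sq
  linear_combination this

theorem om_four : ω ^ 4 = -ω := by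
  rw [pow_succ, om_cube]
  ring

theorem om_six : ω ^ 6 = 1 := by
  rw [show (6 : ℕ) = 3 * 2 from rfl, pow_mul, om_cube]
  ring

theorem norm_om : ‖ω‖ = 1 := by
  rw [← exp_pi3]
  have h : ((π : ℂ) / 3) = ((π / 3 : ℝ) : ℂ) := by push_cast; rfl
  rw [h, Complex.norm_exp_ofReal_mul_I]

theorem norm_om_pow (m : ℕ) : ‖ω ^ m‖ = 1 := by
  rw [norm_pow, norm_om, one_pow]

theorem om_mod (m : ℕ) : ω ^ (m % 6) = ω ^ m := by
  conv_rhs => rw [← Nat.mod_add_div m 6, pow_add, pow_mul, om_six, one_pow, mul_one]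

section

variable {k : ℕ} {M : ℝ} {x : Fin k → ℂ}

theorem near6 (hx : x ∈ Kc k M) {i : Fin k} (hi : defect x i < c0) {B : ℝ}
    (hB : 6 * (C1 * defect x i) ≤ B) (hB2 : 2 * B < √3) {j : Fin k} (hj : j ∈ nbr x i) (m : ℕ) :
    ∃ l ∈ nbr x i, ‖(x l - x i) - ω ^ m * (x j - x i)‖ ≤ B := by
  classical
  have h6 := ((stab hx i).2 hi).1
  have h := fun l : {l // l ∈ nbr x i} => exists_rot hx i hi hj l.2
  choose f hf using h
  have hinj : Function.Injective f := by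
    intro l l' hll
    by_contra hne
    have hne' : (l : Fin k) ≠ l' := fun h => hne (Subtype.ext h)
    have h1 := hf l
    have h2 := hf l'
    rw [hll] at h1
    have h3 := hx.2 l l' hne'
    have h4 : x l - x l' = ((x l - x i) - Pool.Agent.H96.HD.om (f l') * (x j - x i)) -
        ((x l' - x i) - Pool.Agent.H96.HD.om (f l') * (x j - x i)) := by ring
    have h5 := norm_sub_le ((x l - x i) - Pool.Agent.H96.HD.om (f l') * (x j - x i))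
        ((x l' - x i) - Pool.Agent.H96.HD.om (f l') * (x j - x i))
    rw [← h4] at h5
    linarith
  have hbij : Function.Bijective f := by
    rw [Fintype.bijective_iff_injective_and_card]
    refine ⟨hinj, ?_⟩
    rw [Fintype.card_coe, h6, Fintype.card_fin]
  obtain ⟨l, hl⟩ := hbij.2 ⟨m % 6, Nat.mod_lt _ (by norm_num)⟩
  refine ⟨l, l.2, ?_⟩
  have h1 := hf l
  rw [hl, hdom] at h1
  simp only [om_mod] at h1
  exact h1.trans hB

theorem norm_nbr (hx : x ∈ Kc k M) {i : Fin k} (hi : defect x i < c0) {j : Fin k}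
    (hj : j ∈ nbr x i) : |‖x j - x i‖ - √3| ≤ 2 * (C1 * defect x i) := by
  have hs := ((stab hx i).2 hi).2
  have hle : ∀ l ∈ nbr x i, 0 ≤ π / 6 - al (x l - x i) := fun l hl => by
    have := al_le (hx.2 l i (mem_nbr.mp hl).1)
    linarith
  have h1 : π / 6 - al (x j - x i) ≤ ∑ l ∈ nbr x i, (π / 6 - al (x l - x i)) :=
    Finset.single_le_sum (f := fun l => π / 6 - al (x l - x i)) hle hj
  have h2 := cos_al (nbr_norm hj)
  have h3 := abs_cos_sub_cos_le (al (x j - x i)) (π / 6)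
  rw [h2, cos_pi_div_six, abs_sub_comm (al (x j - x i)), abs_of_nonneg (hle j hj)] at h3
  have h4 : ‖x j - x i‖ - √3 = 2 * (‖x j - x i‖ / 2 - √3 / 2) := by ring
  rw [h4, abs_mul, abs_two]
  linarith

/-- the site `(a,b)` is occupied up to `n² D`, and the six differences are known up to `(n+1) D` -/
def Fr (x : Fin k → ℂ) (z₀ Z : ℂ) (D : ℝ) (n : ℕ) (a b : ℤ) : Prop :=
  ∃ i, ‖x i - (z₀ + Z * (a + b * ω))‖ ≤ (n : ℝ) ^ 2 * D ∧
    ∀ m : ℕ, ∃ l ∈ nbr x i, ‖(x l - x i) - ω ^ m * Z‖ ≤ (n + 1) * D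

theorem Fr.mono {z₀ Z : ℂ} {D : ℝ} (hD : 0 ≤ D) {n n' : ℕ} (hn : n ≤ n') {a b : ℤ}
    (h : Fr x z₀ Z D n a b) : Fr x z₀ Z D n' a b := by
  obtain ⟨i, h1, h2⟩ := h
  have hn' : (n : ℝ) ≤ n' := by exact_mod_cast hn
  refine ⟨i, h1.trans (by gcongr), fun m => ?_⟩
  obtain ⟨l, hl, hl2⟩ := h2 m
  exact ⟨l, hl, hl2.trans (by gcongr)⟩

theorem step (hx : x ∈ Kc k M) {z₀ Z : ℂ} {D τ : ℝ} (hD : 6 * (C1 * τ) ≤ D) (hD2 : 2 * D < √3)
    (hτ : τ < c0) {n : ℕ} {a b a' b' : ℤ} (m : ℕ) (h : Fr x z₀ Z D n a b)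
    (hab : (a' : ℂ) + b' * ω = a + b * ω + ω ^ m) (hn : ((n : ℝ) + 1) ^ 2 * D ≤ 1 / 2)
    (hreg : ∀ l, ‖x l - (z₀ + Z * (a' + b' * ω))‖ ≤ 1 / 2 → defect x l ≤ τ) :
    Fr x z₀ Z D (n + 1) a' b' := by
  obtain ⟨i, h1, h2⟩ := h
  obtain ⟨l, hl, hl2⟩ := h2 m
  have hC1 := C1_pos
  have hD0 : 0 ≤ D := by
    have := (norm_nonneg _).trans hl2
    have hn0 : (0:ℝ) < (n:ℝ) + 1 := by positivity
    exact nonneg_of_mul_nonneg_right this hn0
  have hp : ‖x l - (z₀ + Z * (a' + b' * ω))‖ ≤ ((n : ℝ) + 1) ^ 2 * D := by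
    have e : x l - (z₀ + Z * (a' + b' * ω)) = (x i - (z₀ + Z * (a + b * ω))) +
        ((x l - x i) - ω ^ m * Z) := by
      rw [hab]
      ring
    rw [e]
    refine (norm_add_le _ _).trans ((add_le_add h1 hl2).trans ?_)
    have : (0:ℝ) ≤ n * D := by positivity
    nlinarith
  have hdl : defect x l ≤ τ := hreg l (hp.trans hn)
  refine ⟨l, by push_cast; exact hp, fun q => ?_⟩
  obtain ⟨l', hl', hl'2⟩ := near6 hx (hdl.trans_lt hτ) (B := D)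
    ((mul_le_mul_of_nonneg_left (mul_le_mul_of_nonneg_left hdl hC1.le) (by norm_num)).trans hD)
    hD2 (nbr_symm hl) (q + 5 * m + 3)
  refine ⟨l', hl', ?_⟩
  have e2 : ω ^ (q + 5 * m + 3) * ω ^ m = -ω ^ q := by
    have : ω ^ (q + 5 * m + 3) * ω ^ m = ω ^ q * (ω ^ 6) ^ m * ω ^ 3 := by ring
    rw [this, om_six, one_pow, om_cube]
    ring
  have e : (x l' - x l) - ω ^ q * Z = ((x l' - x l) - ω ^ (q + 5 * m + 3) * (x i - x l)) -
      ω ^ (q + 5 * m + 3) * ((x l - x i) - ω ^ m * Z) := by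
    linear_combination (-Z) * e2
  rw [e]
  refine (norm_sub_le _ _).trans ?_
  rw [norm_mul, norm_om_pow, one_mul]
  push_cast
  linarith

theorem step1 (hx : x ∈ Kc k M) {z₀ Z : ℂ} {D τ : ℝ} (hD : 6 * (C1 * τ) ≤ D) (hD2 : 2 * D < √3)
    (hD0 : 0 ≤ D) (hτ : τ < c0) {n : ℕ} {a b a' : ℤ} (h : Fr x z₀ Z D n a b)
    (ha : |a' - a| ≤ 1) (hn : ((n : ℝ) + 1) ^ 2 * D ≤ 1 / 2)
    (hreg : ∀ l, ‖x l - (z₀ + Z * (a' + b * ω))‖ ≤ 1 / 2 → defect x l ≤ τ) :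
    Fr x z₀ Z D (n + 1) a' b := by
  have h3 : a' = a ∨ a' = a + 1 ∨ a' = a - 1 := by
    rw [abs_le] at ha
    omega
  rcases h3 with rfl | rfl | rfl
  · exact h.mono hD0 (Nat.le_succ n)
  · exact step hx hD hD2 hτ 0 h (by push_cast; ring) hn hreg
  · exact step hx hD hD2 hτ 3 h (by rw [om_cube]; push_cast; ring) hn hreg

theorem step2 (hx : x ∈ Kc k M) {z₀ Z : ℂ} {D τ : ℝ} (hD : 6 * (C1 * τ) ≤ D) (hD2 : 2 * D < √3)
    (hD0 : 0 ≤ D) (hτ : τ < c0) {n : ℕ} {a b b' : ℤ} (h : Fr x z₀ Z D n a b)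
    (hb : |b' - b| ≤ 1) (hn : ((n : ℝ) + 1) ^ 2 * D ≤ 1 / 2)
    (hreg : ∀ l, ‖x l - (z₀ + Z * (a + b' * ω))‖ ≤ 1 / 2 → defect x l ≤ τ) :
    Fr x z₀ Z D (n + 1) a b' := by
  have h3 : b' = b ∨ b' = b + 1 ∨ b' = b - 1 := by
    rw [abs_le] at hb
    omega
  rcases h3 with rfl | rfl | rfl
  · exact h.mono hD0 (Nat.le_succ n)
  · exact step hx hD hD2 hτ 1 h (by push_cast; ring) hn hreg
  · exact step hx hD hD2 hτ 4 h (by rw [om_four]; push_cast; ring) hn hreg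

end

/-! ## The region -/

theorem inner_shift {c d M : ℝ} {u v : ℂ} (hu : u ∈ inner c M) (h : ‖v - u‖ ≤ d) :
    v ∈ inner (c - d) M := by
  have h1 := (abs_le.mp ((Complex.abs_re_le_norm (v - u)).trans h))
  have h2 := (abs_le.mp ((Complex.abs_im_le_norm (v - u)).trans h))
  rw [Complex.sub_re] at h1
  rw [Complex.sub_im] at h2
  obtain ⟨⟨a1, a2⟩, a3, a4⟩ := hu
  refine ⟨⟨?_, ?_⟩, ?_, ?_⟩ <;> linarith [h1.1, h1.2, h2.1, h2.2]

theorem inner_mono {c d M : ℝ} (h : d ≤ c) {u : ℂ} (hu : u ∈ inner c M) : u ∈ inner d M := by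
  obtain ⟨⟨a1, a2⟩, a3, a4⟩ := hu
  refine ⟨⟨?_, ?_⟩, ?_, ?_⟩ <;> linarith

theorem ball_sub {M : ℝ} {v : ℂ} (h : v ∈ inner 3 M) : closedBall v 2 ⊆ Qd M 0 := by
  intro w hw
  rw [mem_closedBall, dist_eq_norm] at hw
  obtain ⟨⟨a1, a2⟩, a3, a4⟩ := inner_shift h hw
  refine ⟨⟨?_, ?_⟩, ?_, ?_⟩ <;> simp only [Complex.zero_re, Complex.zero_im] <;> linarith

theorem site_inner {M : ℝ} {z₀ Z : ℂ} (hZ : ‖Z‖ = √3) {a b : ℤ} (hz : z₀ ∈ inner 8 M)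
    (hz' : z₀ + Z * (a + b * ω) ∈ inner 8 M) {t : ℝ} (ht0 : 0 ≤ t) (ht1 : t ≤ 1) {a' b' : ℤ}
    (h : |(a' : ℝ) - t * a| + |(b' : ℝ) - t * b| ≤ 2) : z₀ + Z * (a' + b' * ω) ∈ inner 4 M := by
  set w : ℂ := z₀ + Z * (a + b * ω) with hw
  have hu : (1 - t : ℝ) * z₀ + (t : ℝ) * w ∈ inner 8 M := by
    obtain ⟨⟨a1, a2⟩, a3, a4⟩ := hz
    obtain ⟨⟨b1, b2⟩, b3, b4⟩ := hz'
    refine ⟨⟨?_, ?_⟩, ?_, ?_⟩ <;>
      simp only [Complex.add_re, Complex.add_im, Complex.re_ofReal_mul, Complex.im_ofReal_mul] <;>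
      nlinarith
  have h8 : (4 : ℝ) = 8 - 4 := by norm_num
  rw [h8]
  refine inner_shift hu ?_
  have e : z₀ + Z * (a' + b' * ω) - ((1 - t : ℝ) * z₀ + (t : ℝ) * w) =
      Z * ((((a' : ℝ) - t * a : ℝ) : ℂ) + (((b' : ℝ) - t * b : ℝ) : ℂ) * ω) := by
    rw [hw]
    push_cast
    ring
  rw [e, norm_mul, hZ]
  have h1 := norm_add_le ((((a' : ℝ) - t * a : ℝ) : ℂ)) ((((b' : ℝ) - t * b : ℝ) : ℂ) * ω)
  rw [norm_mul, norm_om, mul_one, Complex.norm_real, Complex.norm_real, Real.norm_eq_abs,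
    Real.norm_eq_abs] at h1
  have h3 : √3 ≤ 2 := by
    rw [Real.sqrt_le_left (by norm_num)]
    norm_num
  calc √3 * ‖((((a' : ℝ) - t * a : ℝ) : ℂ) + (((b' : ℝ) - t * b : ℝ) : ℂ) * ω)‖ ≤ 2 * 2 :=
        mul_le_mul h3 (h1.trans h) (norm_nonneg _) (by norm_num)
    _ = 4 := by norm_num

theorem floor_step {u v : ℝ} (h : |u - v| ≤ 1) : |⌊u⌋ - ⌊v⌋| ≤ 1 := by
  rw [abs_le] at h ⊢
  have h1 := Int.floor_le u
  have h2 := Int.lt_floor_add_one u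
  have h3 := Int.floor_le v
  have h4 := Int.lt_floor_add_one v
  constructor
  · have : (⌊v⌋ : ℝ) < ⌊u⌋ + 2 := by linarith [h.1]
    have : ⌊v⌋ < ⌊u⌋ + 2 := by exact_mod_cast this
    omega
  · have : (⌊u⌋ : ℝ) < ⌊v⌋ + 2 := by linarith [h.2]
    have : ⌊u⌋ < ⌊v⌋ + 2 := by exact_mod_cast this
    omega

theorem round_err (u : ℝ) : |(⌊u + 1 / 2⌋ : ℝ) - u| ≤ 1 / 2 := by
  rw [abs_le]
  have h1 := Int.floor_le (u + 1 / 2)
  have h2 := Int.lt_floor_add_one (u + 1 / 2)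
  constructor <;> linarith

theorem path {k : ℕ} {M : ℝ} {x : Fin k → ℂ} (hx : x ∈ Kc k M) {z₀ Z : ℂ} {D τ : ℝ}
    (hD : 6 * (C1 * τ) ≤ D) (hD2 : 2 * D < √3) (hD0 : 0 ≤ D) (hτ : τ < c0) (hZ : ‖Z‖ = √3)
    {N : ℕ} (hN : 1 ≤ N) {a b : ℤ} (ha : |(a : ℝ)| ≤ N) (hb : |(b : ℝ)| ≤ N)
    (hz : z₀ ∈ inner 8 M) (hz' : z₀ + Z * (a + b * ω) ∈ inner 8 M) (h0 : Fr x z₀ Z D 0 0 0)
    (hn : (2 * (N : ℝ)) ^ 2 * D ≤ 1 / 2) (hgood : ∀ l, x l ∈ inner 3 M → defect x l ≤ τ) :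
    ∀ j : ℕ, j ≤ N → Fr x z₀ Z D (2 * j) ⌊(j : ℝ) / N * a + 1 / 2⌋ ⌊(j : ℝ) / N * b + 1 / 2⌋ := by
  have hN0 : (0:ℝ) < N := by exact_mod_cast hN
  have hst : ∀ (c : ℤ), |(c : ℝ)| ≤ N → ∀ j : ℕ,
      |((j + 1 : ℕ) : ℝ) / N * c - (j : ℝ) / N * c| ≤ 1 := by
    intro c hc j
    have e : ((j + 1 : ℕ) : ℝ) / N * c - (j : ℝ) / N * c = c / N := by
      push_cast
      ring
    rw [e, abs_div, abs_of_pos hN0, div_le_one hN0]
    exact hc
  have hreg : ∀ a' b' : ℤ, z₀ + Z * (a' + b' * ω) ∈ inner 4 M →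
      ∀ l, ‖x l - (z₀ + Z * (a' + b' * ω))‖ ≤ 1 / 2 → defect x l ≤ τ := by
    intro a' b' h l hl
    exact hgood l (inner_mono (by norm_num) (inner_shift h hl))
  intro j
  induction j with
  | zero =>
    intro _
    have e : ∀ c : ℤ, ⌊((0 : ℕ) : ℝ) / N * c + 1 / 2⌋ = 0 := by
      intro c
      rw [Int.floor_eq_zero_iff]
      constructor <;> norm_num
    rw [e, e]
    exact h0
  | succ j ih =>
    intro hj
    have hjN : ((j + 1 : ℕ) : ℝ) ≤ N := by exact_mod_cast hj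
    have ih' := ih (by omega)
    have ht0 : (0:ℝ) ≤ ((j + 1 : ℕ) : ℝ) / N := by positivity
    have ht1 : ((j + 1 : ℕ) : ℝ) / N ≤ 1 := (div_le_one hN0).mpr hjN
    have hj1 : (((2 * j : ℕ) : ℝ) + 1) ^ 2 * D ≤ 1 / 2 := by
      refine le_trans ?_ hn
      push_cast at hjN ⊢
      gcongr
      linarith
    have hj2 : (((2 * j + 1 : ℕ) : ℝ) + 1) ^ 2 * D ≤ 1 / 2 := by
      refine le_trans ?_ hn
      push_cast at hjN ⊢
      gcongr
      linarith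
    have hfa : |⌊((j + 1 : ℕ) : ℝ) / N * a + 1 / 2⌋ - ⌊(j : ℝ) / N * a + 1 / 2⌋| ≤ 1 := by
      refine floor_step ?_
      rw [add_sub_add_right_eq_sub]
      exact hst a ha j
    have hfb : |⌊((j + 1 : ℕ) : ℝ) / N * b + 1 / 2⌋ - ⌊(j : ℝ) / N * b + 1 / 2⌋| ≤ 1 := by
      refine floor_step ?_
      rw [add_sub_add_right_eq_sub]
      exact hst b hb j
    have ea := round_err (((j + 1 : ℕ) : ℝ) / N * a)
    have eb := round_err (((j + 1 : ℕ) : ℝ) / N * b)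
    have eb' := round_err ((j : ℝ) / N * b)
    have eb'' : |(⌊(j : ℝ) / N * b + 1 / 2⌋ : ℝ) - ((j + 1 : ℕ) : ℝ) / N * b| ≤ 3 / 2 := by
      have h1 := hst b hb j
      rw [abs_le] at h1 eb' ⊢
      constructor <;> linarith [h1.1, h1.2, eb'.1, eb'.2]
    have r1 := hreg _ _ (site_inner hZ hz hz' ht0 ht1
      (a' := ⌊((j + 1 : ℕ) : ℝ) / N * a + 1 / 2⌋) (b' := ⌊(j : ℝ) / N * b + 1 / 2⌋) (by linarith))
    have r2 := hreg _ _ (site_inner hZ hz hz' ht0 ht1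
      (a' := ⌊((j + 1 : ℕ) : ℝ) / N * a + 1 / 2⌋) (b' := ⌊((j + 1 : ℕ) : ℝ) / N * b + 1 / 2⌋)
      (by linarith))
    exact step2 hx hD hD2 hD0 hτ (step1 hx hD hD2 hD0 hτ ih' hfa hj1 r1) hfb hj2 r2

theorem coord_le {M : ℝ} (hM : 0 ≤ M) {z₀ Z : ℂ} (hZ : ‖Z‖ = √3) {a b : ℤ} (hz : z₀ ∈ inner 8 M)
    (hz' : z₀ + Z * (a + b * ω) ∈ inner 8 M) : |(a : ℝ)| ≤ M ∧ |(b : ℝ)| ≤ M := by
  have h3 : √3 * √3 = 3 := by norm_num
  have h1 : Complex.normSq (Z * (a + b * ω)) = 3 * ((a:ℝ) ^ 2 + a * b + (b:ℝ) ^ 2) := by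
    rw [map_mul, ← Complex.sq_norm Z, hZ, pow_two, h3]
    congr 1
    simp only [Complex.normSq_apply, Complex.add_re, Complex.add_im, Complex.intCast_re,
      Complex.intCast_im, Complex.mul_re, Complex.mul_im, Pool.Agent.H96.CP.om]
    nlinarith
  have h2 : Complex.normSq (Z * (a + b * ω)) ≤ 2 * M ^ 2 := by
    obtain ⟨⟨a1, a2⟩, a3, a4⟩ := hz
    obtain ⟨⟨b1, b2⟩, b3, b4⟩ := hz'
    rw [Complex.add_re] at b1 b2
    rw [Complex.add_im] at b3 b4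
    rw [Complex.normSq_apply]
    nlinarith
  rw [h1] at h2
  constructor
  · refine abs_le_of_sq_le_sq ?_ hM
    nlinarith [sq_nonneg ((a:ℝ) + 2 * b)]
  · refine abs_le_of_sq_le_sq ?_ hM
    nlinarith [sq_nonneg (2 * (a:ℝ) + b)]

/-- **Crystal labelling.** -/
theorem crys : S_crys := by
  have hC1 := C1_pos
  have hc0 := c0_pos
  refine ⟨1 + 1 / c0 + 100 * C1, ?_, ?_⟩
  · have : 0 < 1 / c0 := by positivity
    linarith
  intro k M τ x hM hτ hCM hxQ hsep hdef hex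
  obtain ⟨i₀, hi₀⟩ := hex
  have hx : x ∈ Kc k M := by
    refine ⟨fun i => ?_, hsep⟩
    obtain ⟨⟨a1, a2⟩, a3, a4⟩ := hxQ i
    simp only [Complex.zero_re, Complex.zero_im, zero_add] at a1 a2 a3 a4
    exact ⟨⟨a1, a2.le⟩, a3, a4.le⟩
  have hgood : ∀ l, x l ∈ inner 3 M → defect x l ≤ τ := fun l hl => hdef l (ball_sub hl)
  have hM2 : 400 ≤ M ^ 2 := by nlinarith
  have q1 : 0 ≤ M ^ 2 * τ := by positivity
  have q2 : 0 ≤ 1 / c0 * (M ^ 2 * τ) := by positivity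
  have q3 : 0 ≤ C1 * (M ^ 2 * τ) := by positivity
  have e1 : 1 / c0 * (M ^ 2 * τ) ≤ 1 := by nlinarith
  have e2 : 100 * (C1 * (M ^ 2 * τ)) ≤ 1 := by nlinarith
  have e3 : τ < c0 := by
    have h1 : M ^ 2 * τ ≤ c0 := by
      rw [one_div, inv_mul_le_iff₀ hc0] at e1
      linarith
    nlinarith
  have hCt : 0 ≤ C1 * τ := by positivity
  have e4 : 400 * (C1 * τ) ≤ C1 * (M ^ 2 * τ) := by nlinarith
  have e5 : C1 * τ ≤ 1 / 40000 := by linarith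
  have hs3 : (1:ℝ) ≤ √3 := by
    rw [Real.one_le_sqrt]
    norm_num
  have hd0 : defect x i₀ ≤ τ := hgood i₀ (inner_mono (by norm_num) hi₀)
  have hd0' := (stab hx i₀).1
  have hdc := hd0.trans_lt e3
  have hne : (nbr x i₀).Nonempty := by
    rw [← Finset.card_pos, ((stab hx i₀).2 hdc).1]
    norm_num
  obtain ⟨j₁, hj₁⟩ := hne
  have hdC : C1 * defect x i₀ ≤ C1 * τ := mul_le_mul_of_nonneg_left hd0 hC1.le
  set z : ℂ := x j₁ - x i₀ with hzdef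
  set Z : ℂ := (√3 : ℝ) * Complex.exp (Complex.arg z * Complex.I) with hZdef
  have hZ : ‖Z‖ = √3 := by
    rw [hZdef, norm_mul, Complex.norm_exp_ofReal_mul_I, mul_one, Complex.norm_real,
      Real.norm_eq_abs, abs_of_nonneg (by positivity)]
  have hzZ : ‖z - Z‖ ≤ 2 * (C1 * τ) := by
    have h1 : z - Z = ((‖z‖ - √3 : ℝ) : ℂ) * Complex.exp (Complex.arg z * Complex.I) := by
      conv_lhs => rw [← Complex.norm_mul_exp_arg_mul_I z]
      rw [hZdef, Complex.norm_mul_exp_arg_mul_I]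
      push_cast
      rw [sub_mul, Complex.norm_mul_exp_arg_mul_I]
    rw [h1, norm_mul, Complex.norm_exp_ofReal_mul_I, mul_one, Complex.norm_real, Real.norm_eq_abs]
    have := norm_nbr hx hdc hj₁
    linarith
  set D : ℝ := 8 * (C1 * τ) with hD
  have hD0 : 0 ≤ D := by positivity
  have hD2 : 2 * D < √3 := by
    rw [hD]
    linarith
  have h0 : Fr x (x i₀) Z D 0 0 0 := by
    refine ⟨i₀, by simp, fun m => ?_⟩
    obtain ⟨l, hl, hl2⟩ := near6 hx hdc (B := 6 * (C1 * τ)) (by linarith) (by linarith) hj₁ m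
    refine ⟨l, hl, ?_⟩
    have e : (x l - x i₀) - ω ^ m * Z = ((x l - x i₀) - ω ^ m * (x j₁ - x i₀)) +
        ω ^ m * (z - Z) := by
      rw [hzdef]
      ring
    rw [e]
    refine (norm_add_le _ _).trans ?_
    rw [norm_mul, norm_om_pow, one_mul, hD]
    push_cast
    linarith
  set N : ℕ := ⌈M⌉₊ with hNdef
  have hMN : M ≤ N := Nat.le_ceil M
  have hNM : (N : ℝ) ≤ M + 1 := (Nat.ceil_lt_add_one (by linarith)).le
  have hN : 1 ≤ N := by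
    have : (1:ℝ) ≤ N := by linarith
    exact_mod_cast this
  have hNN : (2 * (N:ℝ)) ^ 2 ≤ 9 / 2 * M ^ 2 := by
    have h1 : 2 * (N:ℝ) ≤ 2.1 * M := by linarith
    have h2 : (2 * (N:ℝ)) ^ 2 ≤ (2.1 * M) ^ 2 := by gcongr
    nlinarith
  have hfin : (2 * (N:ℝ)) ^ 2 * D ≤ 36 * (C1 * (M ^ 2 * τ)) := by
    calc (2 * (N:ℝ)) ^ 2 * D ≤ 9 / 2 * M ^ 2 * D := by gcongr
      _ = 36 * (C1 * (M ^ 2 * τ)) := by rw [hD]; ring
  refine ⟨x i₀, Complex.arg z, ?_, Complex.abs_arg_le_pi z, fun a b hab => ?_⟩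
  · obtain ⟨⟨a1, a2⟩, a3, a4⟩ := hi₀
    refine (Complex.norm_le_abs_re_add_abs_im _).trans ?_
    rw [abs_of_nonneg (by linarith), abs_of_nonneg (by linarith)]
    linarith
  · have hlat : lat (x i₀) (Complex.arg z) a b = x i₀ + Z * (a + b * ω) := rfl
    rw [hlat] at hab ⊢
    obtain ⟨ha, hb⟩ := coord_le (by linarith) hZ hi₀ hab
    have hp := path hx (by linarith) hD2 hD0 e3 hZ hN (ha.trans hMN) (hb.trans hMN) hi₀ hab h0
      (by linarith) hgood N le_rfl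
    have hN0 : (N:ℝ) ≠ 0 := by
      have : (1:ℝ) ≤ N := by exact_mod_cast hN
      positivity
    have hr : ∀ c : ℤ, ⌊(N : ℝ) / N * c + 1 / 2⌋ = c := by
      intro c
      rw [div_self hN0, one_mul, Int.floor_eq_iff]
      constructor <;> linarith
    rw [hr, hr] at hp
    obtain ⟨i, hi, _⟩ := hp
    refine ⟨i, hi.trans ?_⟩
    push_cast
    refine hfin.trans ?_
    nlinarith

end Pool.Agent.H87.CP
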